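import Pool.Agent.FU3.Stmts

/-!
Squad FU3 (MP_a6aa4e_lc), row SWE: existence of codes.
-/

set_option autoImplicit false

namespace Pool.Agent.FU3.H09

open Finset Pool.Agent.FUR Pool.Agent.FU2 Pool.Agent.FU3

variable {N : ℕ}

lemma dt_of_const {f : BF N} (h : ∃ b, ∀ x, f x = b) (t : ℕ) : Dt t f := by
  cases t with
  | zero => exact h
  | succ t => exact Or.inl h

lemma rst_res {r : RS N} {f : BF N} {v : Fin N} (hv : r v = none) (b : Bool) :
    rst (res r f) v b = res (put {v} (fun _ => some b) r) f := by
  funext x
  unfold rst res
  congr 1
  funext u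
  unfold apl put
  by_cases hu : u = v
  · subst hu
    simp [hv]
  · simp [hu]

lemma query (f : BF N) (t : ℕ) (J : Finset (Fin N)) : ∀ r : RS N, (∀ v ∈ J, r v = none) →
    (∀ π : Fin N → Bool, Dt t (res (put J (fun v => some (π v)) r) f)) →
    Dt (t + J.card) (res r f) := by
  classical
  induction J using Finset.induction_on with
  | empty =>
    intro r _ h
    have := h (fun _ => true)
    have e : put ∅ (fun _ => some true) r = r := by
      funext v
      simp [put]
    rw [e] at this
    simpa using this
  | insert v J hv ih =>
    intro r hr h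
    rw [Finset.card_insert_of_notMem hv, ← Nat.add_assoc]
    refine Or.inr ⟨v, fun b => ?_⟩
    rw [rst_res (hr v (Finset.mem_insert_self v J)) b]
    refine ih _ ?_ ?_
    · intro u hu
      have huv : u ≠ v := by
        rintro rfl
        exact hv hu
      unfold put
      simp [huv, hr u (Finset.mem_insert_of_mem hu)]
    · intro π
      have := h (Function.update π v b)
      have e : put (insert v J) (fun u => some (Function.update π v b u)) r =
          put J (fun u => some (π u)) (put {v} (fun _ => some b) r) := by
        funext u
        unfold put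
        by_cases huv : u = v
        · subst huv
          simp [hv]
        · simp [huv]
      rw [e] at this
      exact this

lemma first {α : Type} (P : α → Prop) : ∀ F : List α, (∃ t ∈ F, ¬ P t) →
    ∃ (A : List α) (t : α) (C : List α), F = A ++ t :: C ∧ (∀ a ∈ A, P a) ∧ ¬ P t := by
  intro F
  induction F with
  | nil =>
    rintro ⟨t, ht, _⟩
    exact absurd ht (by simp)
  | cons a F ih =>
    intro h
    by_cases ha : P a
    · obtain ⟨A, t, C, e, hA, ht⟩ := ih (by
        obtain ⟨t, ht, hp⟩ := h
        rcases List.mem_cons.mp ht with rfl | h'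
        · exact absurd ha hp
        · exact ⟨t, h', hp⟩)
      refine ⟨a :: A, t, C, by rw [e]; rfl, ?_, ht⟩
      intro b hb
      rcases List.mem_cons.mp hb with rfl | h'
      · exact ha
      · exact hA b h'
    · exact ⟨[], a, F, rfl, by simp, ha⟩

lemma tv_false {t r : RS N} (h : Fal t r) (x : Fin N → Bool) : tv t (apl r x) = false := by
  obtain ⟨v, b, h1, h2⟩ := h
  unfold tv
  rw [decide_eq_false_iff_not]
  intro h'
  rcases h' v with h3 | h3
  · rw [h1] at h3
    exact absurd h3 (by simp)
  · rw [h1] at h3
    have : apl r x v = !b := by
      unfold apl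
      rw [h2]
      rfl
    rw [this] at h3
    cases b <;> simp at h3

theorem swe : SWEStmt := by
  classical
  intro N F s
  induction s using Nat.strong_induction_on with
  | _ s ih =>
    intro r hs hD
    have hnc : ¬ ∃ b, ∀ x, res r (dn F) x = b := fun h => hD (dt_of_const h _)
    have hex : ∃ t ∈ F, ¬ Fal t r := by
      by_contra hno
      push Not at hno
      apply hnc
      refine ⟨false, fun x => ?_⟩
      unfold res dn
      rw [List.any_eq_false]
      intro t ht
      rw [tv_false (hno t ht) x]
      simp
    obtain ⟨A, t, C, hF, hA, ht⟩ := first (fun t => Fal t r) F hex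
    have htF : t ∈ F := by
      rw [hF]
      simp
    set J₀ : Finset (Fin N) := univ.filter fun v => t v ≠ none ∧ r v = none with hJ₀
    have hmem : ∀ v, v ∈ J₀ ↔ (t v ≠ none ∧ r v = none) := by
      intro v
      rw [hJ₀, Finset.mem_filter]
      simp
    have hne : J₀.Nonempty := by
      by_contra hemp
      rw [Finset.not_nonempty_iff_eq_empty] at hemp
      apply hnc
      refine ⟨true, fun x => ?_⟩
      unfold res dn
      rw [List.any_eq_true]
      refine ⟨t, htF, ?_⟩
      unfold tv
      rw [decide_eq_true_iff]
      intro v
      by_cases htv : t v = none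
      · exact Or.inl htv
      · right
        have hrv : r v ≠ none := by
          intro h
          have : v ∈ J₀ := (hmem v).mpr ⟨htv, h⟩
          rw [hemp] at this
          exact absurd this (by simp)
        obtain ⟨b, hb⟩ := Option.ne_none_iff_exists'.mp htv
        obtain ⟨c, hc⟩ := Option.ne_none_iff_exists'.mp hrv
        have hbc : c = b := by
          by_contra hcb
          apply ht
          refine ⟨v, b, hb, ?_⟩
          rw [hc]
          cases b <;> cases c <;> simp_all
        rw [hb]
        unfold apl
        rw [hc, hbc]
        rfl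
    by_cases hle : s ≤ J₀.card
    · obtain ⟨J, hJJ, hJc⟩ := Finset.exists_subset_card_eq hle
      have hJn : J.Nonempty := by
        rw [← Finset.card_pos, hJc]
        exact hs
      refine ⟨put J t (put J (fun v => some ((fun _ => true : Fin N → Bool) v)) r), ?_⟩
      have h := Enc.step (F := F) A t C hF hA ht J hJn (fun v hv => (hmem v).mp (hJJ hv))
        (Or.inl rfl) (fun _ => true) (Enc.zero (F := F) _)
      rw [hJc, Nat.zero_add] at h
      exact h
    · push Not at hle
      have hπ : ∃ π : Fin N → Bool,
          ¬ Dt (s - J₀.card - 1) (res (put J₀ (fun v => some (π v)) r) (dn F)) := by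
        by_contra hno
        push Not at hno
        apply hD
        have h := query (dn F) (s - J₀.card - 1) J₀ r (fun v hv => ((hmem v).mp hv).2) hno
        have e : s - J₀.card - 1 + J₀.card = s - 1 := by omega
        rw [e] at h
        exact h
      obtain ⟨π, hπ⟩ := hπ
      have hpos : 0 < J₀.card := Finset.card_pos.mpr hne
      obtain ⟨r'', hr''⟩ := ih (s - J₀.card) (by omega) _ (by omega) hπ
      refine ⟨put J₀ t r'', ?_⟩
      have h := Enc.step (F := F) A t C hF hA ht J₀ hne (fun v hv => (hmem v).mp hv)
        (Or.inr fun v h1 h2 => (hmem v).mpr ⟨h1, h2⟩) π hr''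
      have e : s - J₀.card + J₀.card = s := by omega
      rw [e] at h
      exact h

end Pool.Agent.FU3.H09
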